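import Mathlib

set_option autoImplicit false
open Cardinal Set Function Filter Topology

namespace Pool.Agent.H.MP_a6df80_lc

structure Reg (T : Type) [LinearOrder T] : Prop where
  bd : ∀ {ι : Type} (g : ι → T), #ι < #T → ∃ γ, ∀ i, g i < γ
  un : ℵ₀ < #T
  io : ∀ a : T, #(Iic a) < #T

lemma base (K : Type) (hK : #K ≤ 𝔠) : ∃ (T : Type) (_ : LinearOrder T) (_ : WellFoundedLT T),
    Reg T ∧ #T ≤ 𝔠 ∧ ∃ st : K → T, ∀ a, #{t | st t ≤ a} < 𝔠 := by
  let O := (𝔠 : Cardinal.{0}).ord.ToType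
  have hO : #O = 𝔠 := mk_ord_toType _
  obtain ⟨s, hs, hs'⟩ := Ordinal.exists_ord_cof_eq O
  have h1 : #s = Order.cof O := by rw [← Ordinal.card_type (α := s) (· < ·), hs', card_ord]
  have h2 : ℵ₀ < #s := by
    rw [h1, Ordinal.cof_toType]
    exact lt_cof_ord_power le_rfl (by norm_num : (1 : Cardinal.{0}) < 2)
  obtain ⟨ι⟩ := (Cardinal.le_def K O).1 (hK.trans hO.ge)
  choose st s1 s2 using fun t => hs (ι t)
  refine ⟨s, inferInstance, inferInstance, ⟨fun g h => ?_, h2, fun a =>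
    mk_Iic_lt a (by rw [hs', h1]) h2.le⟩, (mk_set_le s).trans hO.le, fun t => ⟨st t, s1 t⟩, fun a => ?_⟩
  · by_contra! h'
    refine ((mk_range_le (f := g)).trans_lt h).not_ge ?_
    rw [h1, ← Order.cof_eq_of_isCofinal hs]
    exact Order.cof_le fun γ => (h' γ).elim fun i hi => ⟨_, ⟨i, rfl⟩, hi⟩
  · refine (mk_le_of_injective (f := fun t => (⟨ι t.1, (s2 _).trans t.2⟩ : Iic a.1))
      fun a b e => Subtype.ext (ι.injective (congrArg Subtype.val e))).trans_lt ?_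
    exact (mk_Iic_lt a.1 (by simp [O]) (hO ▸ aleph0_le_continuum)).trans_eq hO

lemma rec_choice {α β : Type} [LinearOrder α] [WellFoundedLT α]
    (P : ∀ a : α, (Iio a → β) → β → Prop) (h : ∀ a f, ∃ b, P a f b) :
    ∃ d : α → β, ∀ a, P a (fun x => d x) (d a) := by
  choose F hF using h
  let d : α → β := (wellFounded_lt (α := α)).fix fun a prev => F a fun x => prev x.1 x.2
  have hd : ∀ a, d a = F a fun x => d x := fun a => WellFounded.fix_eq _ _ a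
  exact ⟨d, fun a => by rw [hd a]; exact hF a _⟩

abbrev J := ℕ ×ₗ ℕ
instance : Countable J := inferInstanceAs (Countable (ℕ × ℕ))
abbrev Task := (ℕ → J → ℝ) × Set ℕ × Finset J × J

def fib (t : Task) (v : t.2.2.1 → ℝ) : Set ℝ :=
  {z | ∀ ε > 0, ∃ n ∈ t.2.1, |t.1 n t.2.2.2 - z| < ε ∧ ∀ j : t.2.2.1, |t.1 n j - v j| < ε}

def Bad (F : Set ℝ) : Set ℝ := {x ∈ F | 𝓝[F ∩ Ioi x] x = ⊥} ∪ {x ∈ F | 𝓝[F ∩ Iio x] x = ⊥}

lemma Bad.side {F : Set ℝ} {x : ℝ} (hx : x ∈ F) (h : x ∉ Bad F) (p : Prop) {ε : ℝ} (hε : 0 < ε) :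
    ∃ z ∈ F, ∃ q q' : ℚ, q < z ∧ z < q' ∧ ∀ y : ℝ, q < y → y < q' → |y - x| < ε ∧ (y < x ↔ p) := by
  simp only [Bad, mem_union, mem_ofPred_eq, hx, true_and, not_or] at h
  by_cases hp : p
  · obtain ⟨z, a, c⟩ := (mem_closure_iff_nhds.1 (mem_closure_iff_nhdsWithin_neBot.2 ⟨h.2⟩)) _
      (Ioi_mem_nhds (sub_lt_self x hε))
    obtain ⟨q, a1, a2⟩ := exists_rat_btwn (show x - ε < z from a)
    obtain ⟨q', a3, a4⟩ := exists_rat_btwn (show z < x from c.2)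
    exact ⟨z, c.1, q, q', a2, a3, fun y b1 b2 =>
      ⟨abs_lt.2 ⟨by linarith, by linarith⟩, iff_of_true (b2.trans a4) hp⟩⟩
  · obtain ⟨z, a, c⟩ := (mem_closure_iff_nhds.1 (mem_closure_iff_nhdsWithin_neBot.2 ⟨h.1⟩)) _
      (Iio_mem_nhds (lt_add_of_pos_right x hε))
    obtain ⟨q, a1, a2⟩ := exists_rat_btwn (show x < z from c.2)
    obtain ⟨q', a3, a4⟩ := exists_rat_btwn (show z < x + ε from a)
    exact ⟨z, c.1, q, q', a2, a3, fun y b1 b2 =>
      ⟨abs_lt.2 ⟨by linarith, by linarith⟩, iff_of_false (a1.trans b1).not_gt hp⟩⟩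

variable {T : Type} [LinearOrder T]

def Φ (r : T → ℕ → ℝ) (e : ℕ → T) : ℕ × ℕ → ℝ := fun j => r (e j.1) j.2

structure Ent (r : T → ℕ → ℝ) : Prop where
  inj : ∀ m, Injective (r · m)
  irr : ∀ a m (q : ℚ), r a m ≠ q
  ctl : ∀ A : Set (ℕ → T), A.Nonempty → (∀ e ∈ A, StrictMono e) → ∃ d : ℕ → ℕ → T, (∀ n, d n ∈ A) ∧
    ∃ γ, (∀ n i, d n i < γ) ∧ ∀ β ∈ A, γ < β 0 → ∀ (s : Finset (ℕ × ℕ)) (p : ℕ × ℕ → Prop),
      ∃ᶠ n in comap (fun n => Φ r (d n)) (𝓝 (Φ r β)), ∀ j ∈ s, (Φ r (d n) j < Φ r β j ↔ p j)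

theorem ent : ∃ (T : Type) (_ : LinearOrder T) (_ : WellFoundedLT T), Reg T ∧
    ∃ r : T → ℕ → ℝ, Ent r := by
  obtain ⟨T, _, _, hT, hc, st, hst⟩ := base Task (by simp [Task, J, Lex, mk_real])
  refine ⟨T, _, ‹_›, hT, ?_⟩
  obtain ⟨ρ, hρ⟩ := rec_choice (α := T ×ₗ ℕ) (β := ℝ) (fun i prev y => y ∉ range prev ∪
      range ((↑) : ℚ → ℝ) ∪ ⋃ u : (Σ t : {t | st t ≤ (ofLex i).1}, (t.1.2.2.1 → Iio i)),
        Bad (fib u.1.1 (prev ∘ u.2))) fun i prev => by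
    have h1 : #(Iio i) < 𝔠 := (mk_le_of_injective (β := Iic (ofLex i).1 × ℕ)
      (f := fun x => (⟨(ofLex x.1).1, Prod.Lex.monotone_fst x.1 i (le_of_lt x.2)⟩, (ofLex x.1).2))
      fun a b e => Subtype.ext (ofLex.injective (Prod.ext
        (congrArg (fun x => x.1.1) e) (Prod.ext_iff.1 e).2))).trans_lt (by
          simpa using mul_lt_of_lt aleph0_le_continuum ((hT.io _).trans_le hc) aleph0_lt_continuum)
    by_contra! h
    refine (mk_univ.symm.trans_le (mk_le_mk_of_subset fun y _ => h y)).not_gt ?_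
    rw [mk_real]
    refine (mk_union_le _ _).trans_lt (add_lt_of_lt aleph0_le_continuum ((mk_union_le _ _).trans_lt
      (add_lt_of_lt aleph0_le_continuum (mk_range_le.trans_lt h1)
        ((countable_range _).le_aleph0.trans_lt aleph0_lt_continuum))) ?_)
    refine (mk_iUnion_le _).trans_lt (mul_lt_of_lt aleph0_le_continuum ?_ ((ciSup_le' fun u =>
      (countable_setOfPred_isolated_right_within.union
        countable_setOfPred_isolated_left_within).le_aleph0).trans_lt aleph0_lt_continuum))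
    rw [mk_sigma]
    refine (sum_le_sum _ (fun _ => max #(Iio i) ℵ₀) fun t => ?_).trans_lt ?_
    · simpa using power_nat_le_max
    · rw [sum_const']
      exact mul_lt_of_lt aleph0_le_continuum (hst _) (max_lt h1 aleph0_lt_continuum)
  simp only [mem_union, not_or, mem_iUnion, not_exists] at hρ
  have P : ∀ (x : ℕ → J → ℝ) (s : Finset J) (S : Set ℕ), ∃ γ : T, ∀ e : J → T ×ₗ ℕ, StrictMono e →
      (∀ j, γ < (ofLex (e j)).1) → (∀ ε > 0, ∃ n ∈ S, ∀ j ∈ s, |x n j - ρ (e j)| < ε) →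
      ∀ (p : J → Prop), ∀ ε > 0, ∃ n ∈ S, ∀ j ∈ s, |x n j - ρ (e j)| < ε ∧ (x n j < ρ (e j) ↔ p j) := by
    intro x s
    induction s using Finset.induction_on_max with
    | empty => exact fun S => ⟨st default, fun e _ _ h p ε hε => by simpa using h ε hε⟩
    | insert j s hj ih =>
    intro S
    choose g hg using ih
    obtain ⟨γ, hγ⟩ := hT.bd (fun q : ℚ × ℚ => max (st (x, S, s, j))
      (g {n ∈ S | q.1 < x n j ∧ x n j < q.2})) (mk_le_aleph0.trans_lt hT.un)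
    simp only [max_lt_iff] at hγ
    refine ⟨γ, fun e h1 h2 h3 p ε hε => ?_⟩
    obtain ⟨z, a1, q, q', a2, a3, a4⟩ := Bad.side (F := fib (x, S, s, j) fun i => ρ (e i))
      (fun ε hε => (h3 ε hε).imp fun n h =>
        ⟨h.1, h.2 j (Finset.mem_insert_self _ _), fun j => h.2 j (Finset.mem_insert_of_mem j.2)⟩)
      ((hρ (e j)).2 ⟨⟨(x, S, s, j), ((hγ 0).1.trans (h2 j)).le⟩, fun i => ⟨e i, h1 (hj i i.2)⟩⟩)
      (p j) hε
    obtain ⟨n, b1, b2⟩ := hg _ e h1 (fun j => (hγ (q, q')).2.trans (h2 j)) (fun δ hδ => by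
      obtain ⟨n, c1, c2, c3⟩ := a1 (min δ (min (z - q) (q' - z))) (by simp [*])
      simp only [lt_min_iff, abs_lt] at c2
      exact ⟨n, ⟨c1, by linarith, by linarith⟩, fun i hi => (c3 ⟨i, hi⟩).trans_le (min_le_left _ _)⟩) p ε hε
    exact ⟨n, b1.1, Finset.forall_mem_insert _ _ _ |>.2 ⟨a4 _ b1.2.1 b1.2.2, b2⟩⟩
  refine ⟨fun a m => ρ (toLex (a, m)), fun m => Function.Injective.of_lt_imp_ne fun a b h e =>
    (hρ _).1.1 ⟨⟨toLex (a, m), Prod.Lex.left _ _ h⟩, e⟩, fun a m q e => (hρ _).1.2 ⟨q, e.symm⟩,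
    fun A ⟨e0, h0⟩ hA => ?_⟩
  set r := fun a m => ρ (toLex (a, m))
  have : Nonempty A := ⟨⟨e0, h0⟩⟩
  let : TopologicalSpace A := .induced (fun e => Φ r e) inferInstance
  have := TopologicalSpace.secondCountableTopology_induced A _ fun e => Φ r e
  obtain ⟨d, hd⟩ := TopologicalSpace.exists_dense_seq A
  choose g hg using fun s => P (fun n j => Φ r (d n) (ofLex j)) s univ
  obtain ⟨γ, hγ⟩ := hT.bd (fun u : Finset J × ℕ × ℕ => max (g u.1) ((d u.2.1).1 u.2.2))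
    (mk_le_aleph0.trans_lt hT.un)
  simp only [max_lt_iff] at hγ
  refine ⟨fun n => d n, fun n => (d n).2, γ, fun n i => (hγ (∅, n, i)).2, fun β hβ h s p =>
    frequently_iff.2 fun ⟨V, hV, hU⟩ => ?_⟩
  rw [nhds_pi] at hV
  obtain ⟨I, hI, t, ht, hV⟩ := mem_pi.1 hV
  obtain ⟨ε, a1, a2⟩ := ((((eventually_all_finite hI).2 fun i _ => eventually_ball_subset
    (ht i)).filter_mono nhdsWithin_le_nhds).and (self_mem_nhdsWithin (s := Ioi (0 : ℝ)))).exists
  obtain ⟨n, -, hn⟩ := hg ((s ∪ hI.toFinset).map toLex.toEmbedding)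
    (fun j => toLex (β (ofLex j).1, (ofLex j).2)) (fun a b h => by
      rcases Prod.Lex.lt_iff.1 h with h | ⟨h, h'⟩
      · exact Prod.Lex.left _ _ (hA β hβ h)
      · exact Prod.Lex.lt_iff.2 (Or.inr ⟨congrArg β h, h'⟩))
    (fun j => ((hγ (_, 0, 0)).1.trans h).trans_le ((hA β hβ).monotone (Nat.zero_le _)))
    (fun δ hδ => by
      have c : ∀ j, Continuous fun e : A => Φ r e j := fun j =>
        (continuous_apply j).comp (continuous_induced_dom (f := fun e : A => Φ r e))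
      obtain ⟨_, ⟨n, rfl⟩, a⟩ := hd.inter_nhds_nonempty ((eventually_all_finset
        ((s ∪ hI.toFinset).map toLex.toEmbedding)).2 fun j _ => ((c (ofLex j)).tendsto
          ⟨β, hβ⟩).eventually (Metric.ball_mem_nhds _ hδ))
      exact ⟨n, trivial, a⟩) (fun j => p (ofLex j)) ε a2
  exact ⟨n, hU (hV fun i hi => a1 i hi (hn (toLex i) (by simp [hi])).1),
    fun j hj => (hn (toLex j) (by simp [hj])).2⟩

end Pool.Agent.H.MP_a6df80_lc
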