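import Mathlib

set_option autoImplicit false
open Set Function MvPolynomial

namespace Pool.Agent.H.MP_a6df80_lc

abbrev P (σ : Type) := MvPolynomial σ ℚ

section
variable {σ τ : Type} {p q g : P σ} {i : σ}

lemma vars_dvd (h : q ∣ g) (h0 : g ≠ 0) : q.vars ⊆ g.vars := fun i hi => by
  obtain ⟨c, rfl⟩ := h
  rw [mem_vars_iff_degreeOf_ne_zero] at hi ⊢
  rw [degreeOf_mul_eq (left_ne_zero_of_mul h0) (right_ne_zero_of_mul h0)]
  omega

lemma vars_assoc (h : Associated p q) : p.vars = q.vars := by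
  rcases eq_or_ne q 0 with rfl | e
  · rw [(associated_zero_iff_eq_zero _).1 h]
  · exact (vars_dvd h.dvd e).antisymm (vars_dvd h.symm.dvd (h.ne_zero_iff.2 e))

lemma dvd_pd (h : q ∣ g) (hi : i ∉ q.vars) : q ∣ pderiv i g := by
  obtain ⟨c, rfl⟩ := h
  simp [pderiv_eq_zero_of_notMem_vars hi]

lemma sq_pd (h : q ^ 2 ∣ g) (i : σ) : q ∣ pderiv i g := by
  obtain ⟨c, rfl⟩ := h
  exact ⟨2 * pderiv i q * c + q * pderiv i c, by simp; ring⟩

lemma ex_prime (h0 : g ≠ 0) (hi : i ∈ g.vars) : ∃ q, Prime q ∧ q ∣ g ∧ i ∈ q.vars := by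
  classical
  induction g using UniqueFactorizationMonoid.induction_on_prime with
  | h₁ => exact absurd rfl h0
  | h₂ u hu => simpa [vars_one] using vars_dvd hu.dvd one_ne_zero hi
  | h₃ a p ha hp ih =>
    rcases Finset.mem_union.1 (vars_mul _ _ hi) with h | h
    · exact ⟨p, hp, dvd_mul_right _ _, h⟩
    · exact (ih ha h).imp fun q h => ⟨h.1, h.2.1.mul_left _, h.2.2⟩

lemma self_pd (h : q ∣ pderiv i q) : i ∉ q.vars := fun hi => by
  obtain ⟨d, h1, h2⟩ := (mem_vars_iff_mem_support _).1 hi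
  have h0 : pderiv i q ≠ 0 := fun e => by
    have := coeff_pderiv (i := i) q (d - Finsupp.single i 1)
    rw [e, tsub_add_cancel_of_le (by simpa [Nat.one_le_iff_ne_zero] using h2)] at this
    exact mul_ne_zero (mem_support_iff.1 h1) (by positivity) this.symm
  have : degreeOf i (pderiv i q) < degreeOf i q :=
    (degreeOf_lt_iff (Nat.pos_of_ne_zero (mem_vars_iff_degreeOf_ne_zero.1 hi))).2 fun m hm => by
      rw [mem_support_iff, coeff_pderiv] at hm
      simpa using monomial_le_degreeOf i (mem_support_iff.2 (left_ne_zero_of_mul hm))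
  obtain ⟨c, hc⟩ := h
  rw [hc] at h0 this
  rw [degreeOf_mul_eq (left_ne_zero_of_mul h0) (right_ne_zero_of_mul h0)] at this
  omega

lemma ren_congr {f f' : σ → τ} (h : ∀ i ∈ p.vars, f i = f' i) : rename f p = rename f' p :=
  hom_congr_vars (f₁ := (rename f).toRingHom) (f₂ := (rename f').toRingHom) (by ext; simp)
    (fun i hi _ => by simp [h i hi]) rfl

lemma ren_inv [Nonempty σ] {f : σ → τ} {V : Set σ} (h : InjOn f V) (hp : ↑p.vars ⊆ V) :
    rename (invFunOn f V) (rename f p) = p := by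
  rw [rename_rename, ren_congr (f := invFunOn f V ∘ f) (f' := id) fun i hi => h.leftInvOn_invFunOn (hp hi)]
  simp

lemma vars_ren [DecidableEq τ] {f : σ → τ} (h : Injective f) : (rename f p).vars = p.vars.image f := by
  refine (vars_rename _ _).antisymm fun j hj => ?_
  obtain ⟨i, hi, rfl⟩ := Finset.mem_image.1 hj
  have : Nonempty σ := ⟨i⟩
  rw [← ren_inv h.injOn (subset_univ (p.vars : Set σ))] at hi
  obtain ⟨j, a, rfl⟩ := mem_vars_rename _ _ hi
  obtain ⟨i, -, rfl⟩ := mem_vars_rename _ _ a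
  rwa [h.injOn.leftInvOn_invFunOn (mem_univ i)]

lemma prime_ren {f : σ → τ} (h : Injective f) (hp : Prime p) : Prime (rename f p) := by
  have := (prime_rename_iff (range f)).2
    ((MulEquiv.prime_iff (renameEquiv ℚ (Equiv.ofInjective f h))).2 hp)
  rwa [renameEquiv_apply, rename_rename] at this

lemma cop_ren {f : σ → τ} (h : Injective f) (h0 : q ≠ 0) :
    IsRelPrime (rename f p) (rename f q) ↔ IsRelPrime p q := by
  refine ⟨fun c d a b => ?_, fun c d a b => ?_⟩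
  · simpa [killCompl_rename_app] using (c (map_dvd _ a) (map_dvd _ b)).map (killCompl h)
  obtain ⟨d, rfl⟩ := exists_rename_eq_of_vars_subset_range d f h fun i hi => by
    obtain ⟨j, -, e⟩ := mem_vars_rename _ _
      (vars_dvd b ((map_ne_zero_iff _ (rename_injective f h)).2 h0) hi)
    exact ⟨j, e⟩
  exact (c (by simpa [killCompl_rename_app] using map_dvd (killCompl h) a)
    (by simpa [killCompl_rename_app] using map_dvd (killCompl h) b)).map _

noncomputable def Wr (i : σ) (p q : P σ) : P σ := pderiv i p * q - p * pderiv i q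

lemma Wr_zero (c : IsRelPrime p q) (h0 : q ≠ 0) (h : Wr i p q = 0) : i ∉ p.vars ∧ i ∉ q.vars := by
  have e := sub_eq_zero.1 h
  have := self_pd (c.symm.dvd_of_dvd_mul_left (e ▸ dvd_mul_left _ _))
  rw [pderiv_eq_zero_of_notMem_vars this, mul_zero] at e
  exact ⟨self_pd (by simp [(mul_eq_zero.1 e).resolve_right h0]), this⟩

lemma key {A B A' B' : P σ} (hA : pderiv i A = 0) (hB : pderiv i B = 0) (h : q ∣ A * B' - A' * B)
    (h' : q ∣ pderiv i (A * B' - A' * B)) : q ∣ A * Wr i A' B' ∧ q ∣ B * Wr i A' B' := by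
  constructor
  · convert (h.mul_left (pderiv i A')).sub (h'.mul_left A') using 1
    simp [Wr, hA, hB]; ring
  · convert (h.mul_left (pderiv i B')).sub (h'.mul_left B') using 1
    simp [Wr, hA, hB]; ring
end

variable {R : Type}

abbrev S2 (R : Type) := R ⊕ₗ (Bool ×ₗ ℕ)
def v (b : Bool) (i : ℕ) : S2 R := toLex (Sum.inr (toLex (b, i)))
def jb (b : Bool) : R ⊕ ℕ → S2 R := Sum.elim (fun x => toLex (Sum.inl x)) (v b)
noncomputable abbrev rb (b : Bool) : P (R ⊕ ℕ) →ₐ[ℚ] P (S2 R) := rename (jb b)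
def Mt (q : P (S2 R)) : Prop := ∃ j, v false j ∈ q.vars ∧ v true j ∈ q.vars

lemma v_inj {b b' : Bool} {i j : ℕ} : (v b i : S2 R) = v b' j ↔ b = b' ∧ i = j := by simp [v]

lemma jb_inj (b : Bool) : Injective (jb b : R ⊕ ℕ → S2 R) := by
  rintro (x | x) (y | y) <;> simp [jb, v]

lemma v_rb {b : Bool} {j : ℕ} {p : P (R ⊕ ℕ)} : v (!b) j ∉ (rb b p).vars := fun h => by
  obtain ⟨x | x, -, e⟩ := mem_vars_rename _ _ h <;> simp [jb, v] at e

lemma rb_ne {b : Bool} {p : P (R ⊕ ℕ)} (h : p ≠ 0) : rb b p ≠ 0 :=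
  (map_ne_zero_iff _ (rename_injective _ (jb_inj b))).2 h

lemma rb_pd (b : Bool) (i : ℕ) (p : P (R ⊕ ℕ)) :
    pderiv (v b i) (rb b p) = rb b (pderiv (Sum.inr i) p) := pderiv_rename (jb_inj b) (Sum.inr i) p

lemma rb_Wr (b : Bool) (i : ℕ) (p q : P (R ⊕ ℕ)) :
    Wr (v b i) (rb b p) (rb b q) = rb b (Wr (Sum.inr i) p q) := by simp [Wr, rb_pd]

lemma ndvd {b : Bool} {j : ℕ} {q : P (S2 R)} (h : v (!b) j ∈ q.vars) {p : P (R ⊕ ℕ)} (h0 : p ≠ 0) :
    ¬ q ∣ rb b p := fun e => v_rb (vars_dvd e (rb_ne h0) h)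

lemma half {b : Bool} {A B A' B' : P (R ⊕ ℕ)} {i j : ℕ} (c : IsRelPrime A B) (h0 : B ≠ 0)
    (hW : Wr (Sum.inr i) A' B' ≠ 0) {q : P (S2 R)} (hq : Prime q)
    (h : q ∣ rb (!b) A * rb b B' - rb b A' * rb (!b) B) (hj : v (!b) j ∈ q.vars) :
    v b i ∈ q.vars := by
  by_contra hi
  have z : ∀ p : P (R ⊕ ℕ), pderiv (v b i) (rb (!b) p) = 0 := fun p =>
    pderiv_eq_zero_of_notMem_vars (by simpa using v_rb (b := !b))
  have := key (z A) (z B) h (dvd_pd h hi)
  rw [rb_Wr] at this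
  exact hq.not_isUnit ((cop_ren (jb_inj _) h0).2 c
    ((hq.dvd_or_dvd this.1).resolve_right (ndvd hj hW)) ((hq.dvd_or_dvd this.2).resolve_right (ndvd hj hW)))

theorem NL {A B A' B' : P (R ⊕ ℕ)} {i : ℕ} (c : IsRelPrime A B) (c' : IsRelPrime A' B') (h0 : B ≠ 0)
    (h0' : B' ≠ 0) (hW : Wr (Sum.inr i) A B ≠ 0) (hW' : Wr (Sum.inr i) A' B' ≠ 0) {g N : P (S2 R)}
    (hN : N = rb false A * rb true B' - rb true A' * rb false B)
    (H : ∀ q, Prime q → Mt q → q ∣ N * rb false B * rb true B' →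
      ¬ q ^ 2 ∣ N * rb false B * rb true B' → Associated q g) :
    v false i ∈ g.vars ∧ ∃ c, c ≠ 0 ∧ (∀ b j, v b j ∉ c.vars) ∧ N = g * c := by
  have z : ∀ p : P (R ⊕ ℕ), pderiv (v true i) (rb false p) = 0 := fun p =>
    pderiv_eq_zero_of_notMem_vars (v_rb (b := false))
  have z' : ∀ p : P (R ⊕ ℕ), pderiv (v false i) (rb true p) = 0 := fun p =>
    pderiv_eq_zero_of_notMem_vars (v_rb (b := true))
  have h1 : pderiv (v false i) N ≠ 0 := fun e => by
    have e' : rb false (pderiv (.inr i) A) * rb true B' - rb true A' * rb false (pderiv (.inr i) B) = 0 := by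
      rw [← e, hN]; simp [z', rb_pd]; ring
    have := key (q := 0) (z _) (z _) e'.symm.dvd (by rw [e']; simp)
    simp only [rb_Wr, zero_dvd_iff, mul_eq_zero, rb_ne hW', or_false] at this
    exact rb_ne (b := false) hW (by simp [Wr, this])
  have N0 : N ≠ 0 := by rintro rfl; simp at h1
  have main : ∀ q b j, Prime q → q ∣ N → v b j ∈ q.vars →
      v false i ∈ q.vars ∧ ¬ q ^ 2 ∣ N ∧ Associated q g := fun q b j hq hd hj => by
    have a := fun j => half (b := true) (j := j) c h0 hW' hq (hN ▸ hd)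
    have a' := fun j => half (b := false) (j := j) c' h0' hW hq (by rw [← dvd_neg, neg_sub]; exact hN ▸ hd)
    have m : v false i ∈ q.vars ∧ v true i ∈ q.vars := by
      cases b
      · exact ⟨a' _ (a j hj), a j hj⟩
      · exact ⟨a' j hj, a _ (a' j hj)⟩
    have n1 := ndvd (b := false) m.2 h0
    have s : ¬ q ^ 2 ∣ N := fun e => by
      have := (key (z A) (z B) (hN ▸ hd) (hN ▸ sq_pd e _)).2
      rw [rb_Wr] at this
      exact (hq.dvd_or_dvd this).elim n1 (ndvd (b := true) m.1 hW')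
    exact ⟨m.1, s, H q hq ⟨i, m⟩ ((hd.mul_right _).mul_right _) fun e => s (hq.pow_dvd_of_dvd_mul_right _ n1
      (hq.pow_dvd_of_dvd_mul_right _ (ndvd (b := true) m.1 h0') e))⟩
  obtain ⟨q, a1, a2, a3⟩ := ex_prime N0 (by_contra fun h => h1 (pderiv_eq_zero_of_notMem_vars h))
  obtain ⟨-, -, a4⟩ := main q _ _ a1 a2 a3
  obtain ⟨c, hc⟩ := a4.symm.dvd.trans a2
  have c0 : c ≠ 0 := right_ne_zero_of_mul (hc ▸ N0)
  refine ⟨vars_assoc a4 ▸ a3, c, c0, fun b j h => ?_, hc⟩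
  obtain ⟨q, a1, a2, a3⟩ := ex_prime c0 h
  obtain ⟨-, a4, a5⟩ := main q _ _ a1 (hc ▸ a2.mul_left _) a3
  exact a4 (by rw [hc, sq]; exact mul_dvd_mul a5.dvd a2)

end Pool.Agent.H.MP_a6df80_lc
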