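import Pool.Agent.H.MP_a6df80_lc.A
import Pool.Agent.H.MP_a6df80_lc.B

set_option autoImplicit false
set_option linter.unusedSectionVars false
open Set Function MvPolynomial Filter Topology UniqueFactorizationMonoid
open scoped Classical

namespace Pool.Agent.H.MP_a6df80_lc

instance {σ : Type} [Countable σ] : Countable (P σ) :=
  (AddMonoidAlgebra.coeffEquiv (R := ℚ) (M := σ →₀ ℕ)).injective.countable

abbrev Cd := Associates (P (Finset ℕ × Prop × Prop))
instance : Countable Cd := Quotient.countable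
noncomputable def enc : Cd → ℕ := (exists_injective_nat Cd).choose
lemma enc_inj : Injective enc := (exists_injective_nat Cd).choose_spec

noncomputable def qe : ℕ → ℚ := (exists_surjective_nat ℚ).choose

variable {T : Type} [LinearOrder T] (r : T → ℕ → ℝ)

noncomputable def lb (k : ℕ) (c : T) : Finset ℕ :=
  (Finset.range k).filter fun n => (qe n : ℝ) < r c 0

section
variable {σ : Type} [LinearOrder σ]

noncomputable def cd (f : σ → T) (q : P σ) (x y : σ) (k : ℕ) : ℕ :=
  2 * enc (Associates.mk (rename (fun c => (lb r k (f c), x < c, y < c)) q)) + 1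

def tm (f : σ → T) (q : P σ) (x y : σ) : Prop :=
  x < y ∧ ∃ k, lb r k (f x) = lb r k (f y) ∧ r (f x) (2 * k) < r (f y) (2 * k) ∧
    (∀ m < k, ¬ r (f x) (2 * m) < r (f y) (2 * m)) ∧ r (f x) (cd r f q x y k) < r (f y) (cd r f q x y k)

noncomputable def χg (f : σ → T) (q : P σ) : ℤˣ :=
  ∏ p ∈ q.vars ×ˢ q.vars, if tm r f q p.1 p.2 then -1 else 1

noncomputable def χP (p : P T) : ℤˣ := ((factors p).map (χg r id)).prod

variable {r}

lemma cd_assoc {p q : P σ} (h : Associated p q) (f : σ → T) : cd r f p = cd r f q := by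
  funext x y k
  simp only [cd, Associates.mk_eq_mk_iff_associated.2 (h.map (rename _))]

lemma χg_assoc {p q : P σ} (h : Associated p q) (f : σ → T) : χg r f p = χg r f q := by
  have : tm r f p = tm r f q := by funext x y; simp only [tm, cd_assoc h]
  simp only [χg, vars_assoc h, this]

lemma χg_ren {f : σ → T} (hf : StrictMono f) (q : P σ) : χg r id (rename f q) = χg r f q := by
  rw [χg, vars_ren hf.injective, ← Finset.prodMap_image_product,
    Finset.prod_image (hf.injective.prodMap hf.injective).injOn]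
  refine Finset.prod_congr rfl fun p _ => ?_
  simp [tm, cd, rename_rename, comp_def, hf.lt_iff_lt]

lemma χP_eq {p : P T} {s : Multiset (P T)} (h : ∀ x ∈ s, Prime x) (e : Associated s.prod p)
    (h0 : p ≠ 0) : χP r p = (s.map (χg r id)).prod :=
  congrArg _ (Multiset.rel_eq.1 (Multiset.rel_map.2 ((prime_factors_unique
    prime_of_factor h ((factors_prod h0).trans e.symm)).mono fun _ _ _ _ h => χg_assoc h _)))

lemma χP_mul {p q : P T} (hp : p ≠ 0) (hq : q ≠ 0) : χP r (p * q) = χP r p * χP r q := by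
  rw [χP_eq (s := factors p + factors q) (fun x hx => (Multiset.mem_add.1 hx).elim
    (prime_of_factor x) (prime_of_factor x)) (by
      rw [Multiset.prod_add]; exact (factors_prod hp).mul_mul (factors_prod hq)) (mul_ne_zero hp hq)]
  simp [χP]

lemma χP_unit {p : P T} (h : IsUnit p) : χP r p = 1 := by
  rw [χP_eq (s := 0) (by simp) (by simpa using (associated_one_iff_isUnit.2 h).symm) h.ne_zero]
  simp

lemma χP_ren {f : σ → T} (hf : StrictMono f) {g : P σ} (h0 : g ≠ 0) :
    χP r (rename f g) = ((factors g).map (χg r f)).prod := by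
  rw [χP_eq (s := (factors g).map (rename f)) (by
    simpa using fun a h => prime_ren hf.injective (prime_of_factor a h)) (by
      rw [← map_multiset_prod]; exact (factors_prod h0).map _)
    ((map_ne_zero_iff _ (rename_injective f hf.injective)).2 h0)]
  simp [χg_ren hf]

lemma χP_prime {f : σ → T} (hf : StrictMono f) {g : P σ} (h : Prime g) :
    χP r (rename f g) = χg r f g := by
  rw [χP_eq (s := {rename f g}) (by simpa using prime_ren hf.injective h) (by simp)
    (prime_ren hf.injective h).ne_zero]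
  simp [χg_ren hf]
end

variable {r}

lemma lb_mono {k k' : ℕ} (h : k ≤ k') {a b : T} (e : lb r k' a = lb r k' b) : lb r k a = lb r k b := by
  ext n
  have := Finset.ext_iff.1 e n
  simp only [lb, Finset.mem_filter, Finset.mem_range] at this ⊢
  exact and_congr_right fun h' => by simpa [h'.trans_le h] using this

lemma lb_sep (hr : Ent r) {a b : T} (h : a ≠ b) : ∃ k, lb r k a ≠ lb r k b := by
  wlog h' : r a 0 < r b 0 generalizing a b
  · exact (this h.symm (((hr.inj 0).ne h.symm).lt_of_le (not_lt.1 h'))).imp fun _ => Ne.symm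
  obtain ⟨q, h1, h2⟩ := exists_rat_btwn h'
  obtain ⟨n, rfl⟩ : ∃ n, qe n = q := (exists_surjective_nat ℚ).choose_spec q
  exact ⟨n + 1, fun e => by simpa [lb, h2, h1.not_gt] using Finset.ext_iff.1 e n⟩

lemma ev_lt {X : Type} {F : Filter X} {u w : X → ℝ} {a b : ℝ} (hu : Tendsto u F (𝓝 a))
    (hw : Tendsto w F (𝓝 b)) (h : a ≠ b) : ∀ᶠ n in F, (u n < w n ↔ a < b) := by
  rcases h.lt_or_gt with h | h
  · exact (hu.eventually_lt hw h).mono fun n e => iff_of_true e h
  · exact (hw.eventually_lt hu h).mono fun n e => iff_of_false e.not_gt h.not_gt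

def ι (R : Set T) (α β : ℕ → T) (x : S2 R) : T :=
  (ofLex x).elim Subtype.val fun p => bif (ofLex p).1 then β (ofLex p).2 else α (ofLex p).2

lemma S2.cases {R : Type} (x : S2 R) : (∃ y, x = toLex (Sum.inl y)) ∨ ∃ b i, x = v b i := by
  rcases x with y | ⟨b, i⟩
  exacts [Or.inl ⟨y, rfl⟩, Or.inr ⟨b, i, rfl⟩]

lemma v_lt {R : Type} [LT R] {b b' : Bool} {i j : ℕ} :
    (v b i : S2 R) < v b' j ↔ b < b' ∨ b = b' ∧ i < j := by simp [v, Prod.Lex.lt_iff]

lemma tf : ¬ true < false := by decide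

lemma ι_mono {R : Set T} {α β : ℕ → T} (ha : StrictMono α) (hb : StrictMono β)
    (h1 : ∀ x ∈ R, x < α 0) (h2 : ∀ i j, α i < β j) : StrictMono (ι R α β) := fun x y h => by
  have h3 : ∀ x : R, ∀ i, x.1 < α i := fun x i => (h1 _ x.2).trans_le (ha.monotone i.zero_le)
  rcases x.cases with ⟨x, rfl⟩ | ⟨b, i, rfl⟩ <;> rcases y.cases with ⟨y, rfl⟩ | ⟨b', j, rfl⟩
  · exact (Sum.Lex.inl_lt_inl_iff.1 h : x < y)
  · cases b'
    exacts [h3 _ _, (h3 _ 0).trans (h2 _ _)]
  · exact absurd h Sum.Lex.not_inr_lt_inl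
  · rcases v_lt.1 h with e | ⟨rfl, e⟩
    · cases b <;> cases b' <;> first | exact h2 _ _ | exact absurd e (by decide)
    · cases b
      exacts [ha e, hb e]

theorem C0 (hr : Ent r) (R : Set T) (A : Set (ℕ → T)) (hA : A.Nonempty) (hm : ∀ e ∈ A, StrictMono e)
    (hR : ∀ e ∈ A, ∀ x ∈ R, x < e 0) : ∃ d : ℕ → ℕ → T, (∀ n, d n ∈ A) ∧ ∃ γ, ∀ β ∈ A, γ < β 0 →
      (∀ n, StrictMono (ι R (d n) β)) ∧ ∀ Q : Finset (P (S2 R)), ∃ s : P (S2 R) → ℤˣ,
        ∀ t : P (S2 R) → Prop, (∀ q q', Associated q q' → t q → t q') → (∀ q, t q → Mt q) →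
          ∃ n, ∀ q ∈ Q, χg r (ι R (d n) β) q = s q * if t q then -1 else 1 := by
  obtain ⟨d, h1, γ, h2, h3⟩ := hr.ctl A hA hm
  refine ⟨d, h1, γ, fun β hβ hγ => ⟨fun n => ι_mono (hm _ (h1 n)) (hm _ hβ) (hR _ (h1 n)) fun i j =>
    ((h2 n i).trans hγ).trans_le ((hm _ hβ).monotone j.zero_le), fun Q => ?_⟩⟩
  replace h3 := h3 β hβ hγ
  set F := comap (fun n => Φ r (d n)) (𝓝 (Φ r β))
  let L := ι R β β
  have t1 : ∀ x m, Tendsto (fun n => r (ι R (d n) β x) m) F (𝓝 (r (L x) m)) := fun x m => by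
    rcases x.cases with ⟨x, rfl⟩ | ⟨_ | _, i, rfl⟩
    exacts [tendsto_const_nhds, ((continuous_apply (i, m)).tendsto (Φ r β)).comp tendsto_comap,
      tendsto_const_nhds]
  have t3 : ∀ k x, ∀ᶠ n in F, lb r k (ι R (d n) β x) = lb r k (L x) := fun k x =>
    ((eventually_all_finset (Finset.range k)).2 fun m _ => ev_lt tendsto_const_nhds (t1 x 0)
      (hr.irr _ _ _).symm).mono fun n h => Finset.filter_congr h
  have t4 : ∀ k q x y, ∀ᶠ n in F, cd r (ι R (d n) β) q x y k = cd r L q x y k := fun k q x y =>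
    ((eventually_all_finset q.vars).2 fun c _ => t3 k c).mono fun n h => by
      rw [cd, cd, ren_congr fun c hc => by rw [h c hc]]
  have off : ∀ q x y, ∀ᶠ n in F, L x ≠ L y → (tm r (ι R (d n) β) q x y ↔ tm r L q x y) := fun q x y => by
    refine eventually_imp_distrib_left.2 fun h => ?_
    obtain ⟨k0, hk⟩ := lb_sep hr h
    have t2 := fun m => ev_lt (t1 x m) (t1 y m) ((hr.inj m).ne h)
    filter_upwards [(eventually_all_finite (finite_le_nat k0)).2 fun k _ => (t3 k x).and ((t3 k y).and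
      ((t4 k q x y).and ((t2 (2 * k)).and (t2 (cd r L q x y k)))))] with n hn
    refine and_congr_right' (exists_congr fun k => ?_)
    rcases le_total k k0 with e | e
    · obtain ⟨a1, a2, a3, a4, a5⟩ := hn k e
      rw [a1, a2, a3, a4, a5, forall₂_congr fun m hm => not_congr (hn m (hm.le.trans e)).2.2.2.1]
    · exact iff_of_false (fun c => hk ((hn k0 le_rfl).1.symm.trans ((lb_mono e c.1).trans
        (hn k0 le_rfl).2.1))) fun c => hk (lb_mono e c.1)
  let V := Q.biUnion vars
  obtain ⟨K, hK⟩ := ((eventually_all_finset V).2 fun x _ => (eventually_all_finset V).2 fun y _ =>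
    eventually_imp_distrib_left.2 fun h : L x ≠ L y => (lb_sep hr h).elim fun k hk =>
      (eventually_ge_atTop k).mono fun K h e => hk (lb_mono h e)).exists
  have Le : ∀ x y, L x = L y → x = y ∨ ∃ j b, x = v b j ∧ y = v (!b) j := fun x y h => by
    have h3 : ∀ (x : R) b i, x.1 < L (v b i) := fun x b i =>
      (hR _ hβ _ x.2).trans_le (by cases b <;> exact (hm _ hβ).monotone i.zero_le)
    rcases x.cases with ⟨x, rfl⟩ | ⟨b, i, rfl⟩ <;> rcases y.cases with ⟨y, rfl⟩ | ⟨b', j, rfl⟩
    · exact Or.inl (congrArg _ (congrArg _ (Subtype.ext h)))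
    · exact absurd h (h3 _ _ _).ne
    · exact absurd h (h3 _ _ _).ne'
    · obtain rfl : i = j := by cases b <;> cases b' <;> exact (hm _ hβ).injective h
      cases b <;> cases b' <;> first | exact Or.inl rfl | exact Or.inr ⟨_, _, rfl, rfl⟩
  let c := fun q j => cd r L q (v false j) (v true j) K
  have ci : ∀ j, ∀ q ∈ Q, ∀ q' ∈ Q, c q j = c q' j → Associated q q' := fun j q hq q' hq' e => by
    have : Nonempty (S2 R) := ⟨v true 0⟩
    have i : InjOn (fun c => (lb r K (L c), v false j < c, v true j < c)) V := fun x hx y hy e => by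
      simp only [Prod.mk.injEq, eq_iff_iff] at e
      rcases Le x y (by_contra fun h => hK x hx y hy h e.1) with h | ⟨i, b, rfl, rfl⟩
      · exact h
      · cases b <;> simp [v_lt, tf] at e <;> omega
    have := (Associates.mk_eq_mk_iff_associated.1 (enc_inj (by simpa [c, cd] using e))).map
      (rename (invFunOn (fun c => (lb r K (L c), v false j < c, v true j < c)) V))
    rwa [ren_inv i fun x hx => Finset.mem_biUnion.2 ⟨q, hq, hx⟩,
      ren_inv i fun x hx => Finset.mem_biUnion.2 ⟨q', hq', hx⟩] at this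
  let j0 := fun q : P (S2 R) => sInf {j | v false j ∈ q.vars ∧ v true j ∈ q.vars}
  refine ⟨fun q => ∏ p ∈ q.vars ×ˢ q.vars, if L p.1 ≠ L p.2 ∧ tm r L q p.1 p.2 then -1 else 1,
    fun t a1 a2 => ?_⟩
  let Jv := V.preimage (v false) fun _ _ _ _ h => (v_inj.1 h).2
  obtain ⟨n, b1, b2, b3, b4⟩ := ((h3 (Jv ×ˢ (Finset.range (2 * K + 1) ∪ (Q ×ˢ Jv).image fun u => c u.1 u.2))
    fun u => u.2 = 2 * K ∨ ∃ q ∈ Q, t q ∧ u.1 = j0 q ∧ u.2 = c q u.1).and_eventually
    (((eventually_all_finset V).2 fun x _ => t3 K x).and (((eventually_all_finset Q).2 fun q _ =>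
      (eventually_all_finset V).2 fun x _ => (eventually_all_finset V).2 fun y _ => off q x y).and
      ((eventually_all_finset Q).2 fun q _ => (eventually_all_finset Jv).2 fun j _ =>
        t4 K q (v false j) (v true j))))).exists
  refine ⟨n, fun q hq => ?_⟩
  have hV : ∀ x ∈ q.vars, x ∈ V := fun x hx => Finset.mem_biUnion.2 ⟨q, hq, hx⟩
  have : (if t q then -1 else 1 : ℤˣ) = ∏ p ∈ q.vars ×ˢ q.vars,
      if p = (v false (j0 q), v true (j0 q)) then (if t q then -1 else 1) else 1 := by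
    rw [Finset.prod_ite_eq']
    split_ifs with h h' h'
    exacts [rfl, (h' (Finset.mem_product.2 (Nat.sInf_mem (a2 q h)))).elim, rfl, rfl]
  rw [this, ← Finset.prod_mul_distrib]
  refine Finset.prod_congr rfl fun ⟨x, y⟩ hp => ?_
  obtain ⟨hx, hy⟩ := Finset.mem_product.1 hp
  by_cases h : L x = L y
  swap
  · rw [if_neg (c := _ = _) (by rintro ⟨⟩; exact h rfl), mul_one]
    simp only [b3 q hq x (hV x hx) y (hV y hy) h, h, ne_eq, not_false_eq_true, true_and]
  simp only [h, ne_eq, not_true, false_and, if_false, one_mul]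
  rcases Le x y h with rfl | ⟨j, _ | _, rfl, rfl⟩
  · rw [if_neg fun h => lt_irrefl _ h.1, if_neg]
    exact fun h => by simpa [v_inj] using (Prod.ext_iff.1 h).1.symm.trans (Prod.ext_iff.1 h).2
  swap
  · rw [if_neg fun h => by simpa [v_lt, tf] using h.1, if_neg (by simp [v_inj])]
  have hj : j ∈ Jv := Finset.mem_preimage.2 (hV _ hx)
  have e1 : ∀ m ≤ K, r (d n j) (2 * m) < r (β j) (2 * m) ↔ m = K := fun m hm =>
    (b1 (j, 2 * m) (by simp [hj]; omega)).trans ⟨by
      rintro (h | ⟨q, -, -, -, h⟩) <;> simp only [c, cd] at h <;> omega, fun h => Or.inl (by simp [h])⟩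
  have e2 : tm r (ι R (d n) β) q (v false j) (v true j) ↔ t q ∧ j = j0 q := by
    refine Iff.trans (b := r (d n j) (c q j) < r (β j) (c q j)) ⟨?_, fun h => ⟨by simp [v_lt], K,
      (b2 _ (hV _ hx)).trans (b2 _ (hV _ hy)).symm, (e1 K le_rfl).2 rfl,
      fun m hm h => hm.ne ((e1 m hm.le).1 h), by rw [b4 q hq j hj]; exact h⟩⟩
      ((b1 (j, c q j) (by simp only [Finset.mem_product, hj, Finset.mem_union, Finset.mem_image]; exact
        ⟨trivial, Or.inr ⟨(q, j), ⟨hq, hj⟩, rfl⟩⟩)).trans ⟨?_, fun h => Or.inr ⟨q, hq, h.1, h.2, rfl⟩⟩)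
    · rintro ⟨-, k, -, c1, c2, c3⟩
      obtain rfl : k = K := (le_or_gt k K).elim (fun h => (e1 k h).1 c1)
        fun h => absurd ((e1 K le_rfl).2 rfl) (c2 K h)
      rwa [b4 q hq j hj] at c3
    · rintro (h | ⟨q', c1, c2, c3, c4⟩)
      · simp only [c, cd] at h; omega
      have := ci j q hq q' c1 c4
      exact ⟨a1 _ _ this.symm c2, by simpa only [j0, vars_assoc this] using c3⟩
  simp only [Bool.not_false, e2, Prod.mk.injEq, v_inj, true_and, and_self]
  by_cases h : t q <;> simp [h]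

end Pool.Agent.H.MP_a6df80_lc
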