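import Pool.Agent.H.MP_a6df80_lc.C

set_option autoImplicit false
set_option linter.unusedSectionVars false
open Set Function MvPolynomial UniqueFactorizationMonoid IsFractionRing
open scoped Classical

namespace Pool.Agent.H.MP_a6df80_lc

variable {T : Type} [LinearOrder T] {r : T → ℕ → ℝ}

lemma Reg.cb (hT : Reg T) {C : Type} [Countable C] (g : C → T) : ∃ γ, ∀ i, g i < γ :=
  hT.bd g (Cardinal.mk_le_aleph0.trans_lt hT.un)

lemma Reg.nm (hT : Reg T) : NoMaxOrder T := ⟨fun a => (hT.cb fun _ : Unit => a).imp fun _ h => h ()⟩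

lemma Reg.ne (hT : Reg T) : Nonempty T := (hT.cb (C := Empty) Empty.elim).nonempty

lemma pig (hT : Reg T) {X C : Type} [Countable C] {h : X → T} {c : C → X → Prop}
    (H : ∀ γ, ∃ x, γ < h x ∧ ∃ i, c i x) : ∃ i, ∀ γ, ∃ x, γ < h x ∧ c i x := by
  by_contra! e
  choose g hg using e
  obtain ⟨γ, hγ⟩ := hT.cb g
  obtain ⟨x, a, i, b⟩ := H γ
  exact hg i x ((hγ i).trans a) b

lemma delta (hT : Reg T) (F : T → Finset T) {A : Set T} (hA : ∀ γ, ∃ β, γ < β ∧ β ∈ A) :
    ∃ R : Finset T, ∀ γ, ∃ β, γ < β ∧ β ∈ A ∧ ∀ c ∈ F β, c ∈ R ∨ γ < c := by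
  by_contra! e
  choose g hg using e
  choose nx hn using fun a => hT.bd (fun l : List (Iic a) => max a (g (l.map (↑)).toFinset))
    ((Cardinal.mk_list_le_max _).trans_lt (max_lt hT.un (hT.io a)))
  simp only [max_lt_iff] at hn
  obtain ⟨a0⟩ := hT.ne
  obtain ⟨γ, hγ⟩ := hT.cb fun n => nx^[n] a0
  obtain ⟨β, h1, h2⟩ := hA γ
  have : ∀ n, n ≤ ((F β).filter (· ≤ nx^[n] a0)).card := fun n => by
    induction n with
    | zero => simp
    | succ n ih =>
    have := (hn _ (((F β).subtype (· ∈ Iic (nx^[n] a0))).toList)).2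
    rw [show (List.map _ _).toFinset = (F β).filter (· ≤ nx^[n] a0) by ext; simp [and_comm],
      ← iterate_succ_apply' nx] at this
    obtain ⟨c, a1, a2, a3⟩ := hg _ β (this.trans ((hγ _).trans h1)) h2
    refine Nat.succ_le_of_lt (ih.trans_lt (Finset.card_lt_card ⟨Finset.monotone_filter_right _
      fun x _ h => h.trans ?_, fun h => a2 (h (Finset.mem_filter.2 ⟨a1, a3.trans this.le⟩))⟩))
    rw [iterate_succ_apply']
    exact (hn _ []).1.le
  exact (this _).not_gt (Nat.lt_succ_of_le (Finset.card_filter_le _ _))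

lemma ext (hT : Reg T) (F : Finset T) : ∀ γ, (∀ c ∈ F, γ < c) →
    ∃ e : ℕ → T, StrictMono e ∧ γ < e 0 ∧ ∀ c ∈ F, c ∈ range e := by
  have := hT.nm
  induction F using Finset.induction_on_min with
  | empty =>
    intro γ _
    obtain ⟨a, h⟩ := exists_gt γ
    obtain ⟨e, a1, rfl⟩ := Nat.exists_strictMono' a
    exact ⟨e, a1, h, by simp⟩
  | insert a s h ih =>
    intro γ h'
    obtain ⟨e, a1, a2, a3⟩ := ih a h
    refine ⟨fun n => n.casesOn a e, strictMono_nat_of_lt_succ fun n => ?_, h' a (by simp),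
      Finset.forall_mem_insert _ _ _ |>.2 ⟨⟨0, rfl⟩, fun c hc => (a3 c hc).elim fun n h => ⟨n + 1, h⟩⟩⟩
    cases n
    exacts [a2, a1 (Nat.lt_succ_self _)]

section
variable (hT : Reg T) (hr : Ent r) {R : Set T} {A : Set (ℕ → T)} (hA : ∀ γ, ∃ β, γ < β 0 ∧ β ∈ A)
  (hm : ∀ e ∈ A, StrictMono e ∧ ∀ x ∈ R, x < e 0)
include hT hr hA hm

lemma C1 {g q h : P (S2 R)} (p1 : Prime g) (m1 : Mt g) (h0 : h ≠ 0)
    (H : q = 1 ∨ Prime q ∧ Mt q ∧ ¬ Associated q g ∧ ¬ q ∣ h) (ε ε' : ℤˣ) :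
    ∃ α ∈ A, ∀ γ, ∃ β, γ < β 0 ∧ β ∈ A ∧ StrictMono (ι R α β) ∧ χP r (rename (ι R α β) g) = ε ∧
      (q = 1 ∨ χP r (rename (ι R α β) (q * h)) = ε') := by
  obtain ⟨d, h1, γ0, h2⟩ := C0 hr R A ((hA hT.ne.some).imp fun _ h => h.2) (fun e h => (hm e h).1)
    fun e h => (hm e h).2
  refine (pig hT (h := fun β : ℕ → T => β 0) fun γ => ?_).elim fun n h => ⟨d n, h1 n, h⟩
  obtain ⟨β, a1, a2⟩ := hA (max γ γ0)
  obtain ⟨a3, a4⟩ := h2 β a2 (max_lt_iff.1 a1).2
  obtain ⟨s, hs⟩ := a4 (insert g (insert q (factors h).toFinset))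
  let u := ((factors h).map fun p => s p * if s g ≠ ε ∧ Associated p g then -1 else 1).prod
  obtain ⟨n, hn⟩ := hs (fun p => s g ≠ ε ∧ Associated p g ∨ (q ≠ 1 ∧ s q * u ≠ ε') ∧ Associated p q)
    (fun _ _ e h => h.imp (And.imp_right e.symm.trans) (And.imp_right e.symm.trans)) fun p h => by
      rcases h with ⟨-, h⟩ | ⟨h', h⟩
      · rwa [Mt, vars_assoc h]
      · rw [Mt, vars_assoc h]; exact (H.resolve_left h'.1).2.1
  have key : ∀ a b : ℤˣ, (a * if a ≠ b then -1 else 1) = b := by decide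
  refine ⟨β, (max_lt_iff.1 a1).1, n, a2, a3 n, ?_, or_iff_not_imp_left.2 fun e => ?_⟩
  · rw [χP_prime (a3 n) p1, hn g (by simp)]
    convert key (s g) ε using 3
    exact ⟨fun h => h.elim And.left fun h => absurd h.2.symm (H.resolve_left h.1.1).2.2.1,
      fun h => Or.inl ⟨h, Associated.refl _⟩⟩
  obtain ⟨b1, -, b2, b3⟩ := H.resolve_left e
  have i := rename_injective (R := ℚ) _ (a3 n).injective
  rw [map_mul, χP_mul ((map_ne_zero_iff _ i).2 b1.ne_zero) ((map_ne_zero_iff _ i).2 h0),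
    χP_prime (a3 n) b1, hn q (by simp), χP_ren (a3 n) h0, Multiset.map_congr rfl fun p hp => (hn p
      (by simp [hp])).trans (show _ = s p * if s g ≠ ε ∧ Associated p g then -1 else 1 by
        simp [show ¬ Associated p q from fun e => b3 (e.symm.dvd.trans (dvd_of_mem_factors hp))]),
    mul_right_comm]
  convert key (s q * u) ε' using 3
  simp [b2, e]
end

abbrev K (T : Type) := FractionRing (P T)
noncomputable abbrev am : P T →+* K T := algebraMap _ _
lemma am_inj : Injective (am (T := T)) := IsFractionRing.injective _ _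
lemma nd (x : K T) : x * am (den (P T) x) = am (num (P T) x) := num_mul_den_eq_num_iff_eq.2 rfl
lemma d0 (x : K T) : (den (P T) x : P T) ≠ 0 := nonZeroDivisors.coe_ne_zero _

noncomputable def χ (r : T → ℕ → ℝ) (x : K T) : ℤˣ := χP r (num (P T) x * den (P T) x)

lemma χ_eq {x : K T} {p q : P T} (hp : p ≠ 0) (hq : q ≠ 0) (h : x * am q = am p) :
    χ r x = χP r (p * q) := by
  have n0 : num (P T) x ≠ 0 := fun e => hp (am_inj (by rw [← h, eq_zero_of_num_eq_zero e]; simp))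
  have : num (P T) x * q = p * den (P T) x :=
    am_inj (by rw [map_mul, map_mul, ← nd, ← h]; ring)
  have := congrArg (χP r) this
  rw [χP_mul n0 hq, χP_mul hp (d0 x)] at this
  rw [χ, χP_mul n0 (d0 x), χP_mul hp hq]
  exact (by decide : ∀ a b c d : ℤˣ, a * b = c * d → a * d = c * b) _ _ _ _ this

lemma χ_mul {x y : K T} (hx : x ≠ 0) (hy : y ≠ 0) : χ r (x * y) = χ r x * χ r y := by
  have a := (num_eq_zero (A := P T) x).not.2 hx
  have b := (num_eq_zero (A := P T) y).not.2 hy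
  rw [χ_eq (mul_ne_zero a b) (mul_ne_zero (d0 x) (d0 y)) (by simp only [map_mul, ← nd]; ring),
    mul_mul_mul_comm, χP_mul (mul_ne_zero a (d0 x)) (mul_ne_zero b (d0 y)), χ, χ]

lemma χ_am {p : P T} (hp : p ≠ 0) : χ r (am p) = χP r p := by
  rw [χ_eq hp one_ne_zero (by simp), mul_one]

lemma χ_neg (x : K T) : χ r (-x) = χ r x := by
  rcases eq_or_ne x 0 with rfl | h
  · rw [neg_zero]
  rw [neg_eq_neg_one_mul, χ_mul (by simp) h, ← map_one am, ← map_neg, χ_am (by simp),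
    χP_unit isUnit_one.neg, one_mul]

variable {R : Type}

noncomputable abbrev ρ : P R →ₐ[ℚ] P (S2 R) := rename fun x => toLex (Sum.inl x)
noncomputable def gg (a : ℕ) (w : P R) : P (S2 R) := X (v false a) - X (v true a) + ρ w

lemma ρ_inj : Injective (ρ : P R → P (S2 R)) :=
  rename_injective _ (toLex.injective.comp Sum.inl_injective)

lemma v_ρ {b : Bool} {j : ℕ} {w : P R} : v b j ∉ (ρ w).vars := fun h => by
  obtain ⟨x, -, e⟩ := mem_vars_rename _ _ h
  simp [v] at e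

@[simp] lemma pd_ρ {b : Bool} {j : ℕ} {w : P R} : pderiv (v b j) (ρ w) = 0 :=
  pderiv_eq_zero_of_notMem_vars v_ρ

lemma gg_mt (a : ℕ) (w : P R) : v false a ∈ (gg a w).vars ∧ v true a ∈ (gg a w).vars := by
  constructor <;> by_contra h <;> simpa [gg, Pi.single_apply, v_inj] using pderiv_eq_zero_of_notMem_vars h

lemma gg_prime (a : ℕ) (w : P R) : Prime (gg a w) := by
  convert (irreducible_mul_X_add 1 (-X (v true a) + ρ w) (v false a) one_ne_zero (by simp [vars_one])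
    (self_pd (by simp [v_inj])) isRelPrime_one_left).prime using 1
  rw [gg]; ring

lemma gg_var {a i : ℕ} {w : P R} (h : v false i ∈ (gg a w).vars) : i = a :=
  by_contra fun e => self_pd (by simp [gg, v_inj, Ne.symm e]) h

lemma ι_ρ {R : Set T} (α β : ℕ → T) (w : P R) : rename (ι R α β) (ρ w) = rename (↑) w :=
  rename_rename _ _ _

lemma ι_gg {R : Set T} (α β : ℕ → T) (a : ℕ) (w : P R) :
    rename (ι R α β) (gg a w) = X (α a) - X (β a) + rename (↑) w := by
  simp only [gg, map_add, map_sub, ι_ρ, rename_X]; rfl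

lemma ι_rb {R : Set T} (α β : ℕ → T) (b : Bool) (p : P (R ⊕ ℕ)) :
    rename (ι R α β) (rb b p) = rename (Sum.elim (↑) (bif b then β else α)) p := by
  rw [rename_rename]
  congr 2
  funext x
  cases b <;> cases x <;> rfl

lemma sym {a b c d : P R} (ha : a ≠ 0) (h : a * d - b * c ≠ 0) : ∃ q k, Prime q ∧ Mt q ∧ ¬ q ∣ k ∧
    (ρ a * -gg 0 0 + ρ b) * (ρ c * -gg 0 0 + ρ d) = q * k := by
  have a0 := (map_ne_zero_iff _ ρ_inj).2 ha
  have e : ∀ t, pderiv (v t 0) (ρ a * -gg 0 0 + ρ b) = (bif t then 1 else -1) * ρ a := fun t => by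
    cases t <;> simp [gg, v_inj]
  have : pderiv (v true 0) (ρ a * -gg 0 0 + ρ b) ≠ 0 := by rw [e]; simpa using a0
  obtain ⟨q, a1, a2, a3⟩ := ex_prime (fun h => this (by rw [h, map_zero]))
    (by_contra fun h => this (pderiv_eq_zero_of_notMem_vars h))
  have n : ∀ w, w ≠ 0 → ¬ q ∣ ρ w := fun w h e =>
    v_ρ (vars_dvd e ((map_ne_zero_iff _ ρ_inj).2 h) a3)
  obtain ⟨k, hk⟩ := id a2
  refine ⟨q, k * _, a1, ⟨0, by_contra fun h => n a ha (by simpa using (dvd_pd a2 h).trans (e _).dvd), a3⟩,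
    fun h' => (a1.dvd_or_dvd h').elim (fun h => n a ha ?_) fun h' => n _ h ?_, by rw [hk, mul_assoc]⟩
  · simpa using (sq_pd (by rw [hk, sq]; exact mul_dvd_mul_left q h) _).trans (e true).dvd
  · convert (h'.mul_left (ρ a)).sub (a2.mul_left (ρ c)) using 1
    simp; ring

end Pool.Agent.H.MP_a6df80_lc
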