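import Pool.Agent.H.MP_a6df80_lc.D

set_option autoImplicit false
set_option linter.unusedSectionVars false
open Set Function MvPolynomial IsFractionRing
open scoped Classical

namespace Pool.Agent.H.MP_a6df80_lc

variable {T : Type} [LinearOrder T] {r : T → ℕ → ℝ}

lemma tmpl {R : Set T} {p : P T} (h : ↑p.vars ⊆ R) : ∃ w : P R, rename (↑) w = p :=
  exists_rename_eq_of_vars_subset_range p _ Subtype.val_injective (by simpa)

lemma Reg.fb (hT : Reg T) (R : Finset T) : ∃ γ, ∀ x ∈ R, x < γ :=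
  (hT.cb fun x : R => x.1).imp fun _ h x hx => h ⟨x, hx⟩

def Mb (f : K T → K T) (a b c d x : P T) : Prop := f (am x) * am (c * x + d) = am (a * x + b)

variable (hT : Reg T) (hr : Ent r) {ε : ℤˣ} {f : K T → K T}
  (hf : ∀ x y, x ≠ y → χ r (x - y) = ε → f x ≠ f y ∧ χ r (f x - f y) = ε)
include hT hr hf

theorem ML {A : Set T} (hA : ∀ γ, ∃ β, γ < β ∧ β ∈ A) (z : P T) : ∃ a b c d, a * d - b * c ≠ 0 ∧
    ∀ γ, ∃ β, γ < β ∧ β ∈ A ∧ Mb f a b c d (X β) ∧ Mb f a b c d (X β + z) := by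
  let y := fun (β : T) (s : Bool) => f (am (X β + bif s then z else 0))
  obtain ⟨R0, h0⟩ := delta hT (fun β => Finset.univ.biUnion fun s =>
    (num (P T) (y β s)).vars ∪ (den (P T) (y β s) : P T).vars) hA
  obtain ⟨R, hR, z0, hz⟩ : ∃ R : Finset T, R0 ⊆ R ∧ ∃ z0 : P (R : Set T), rename (↑) z0 = z :=
    ⟨R0 ∪ z.vars, by simp, tmpl (by simp)⟩
  have inj : ∀ e : ℕ → T, StrictMono e → (∀ x : T, x ∈ (R : Set T) → x < e 0) →
      Injective (Sum.elim (@Subtype.val T (· ∈ (R : Set T))) e) := fun e h1 h2 =>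
    Subtype.val_injective.sumElim h1.injective fun (x : (R : Set T)) i =>
      ((h2 x.1 x.2).trans_le (h1.monotone i.zero_le)).ne
  obtain ⟨⟨a, p, q⟩, h1⟩ := pig hT (h := fun e : ℕ → T => e 0)
    (c := fun (u : ℕ × (Bool → P ((R : Set T) ⊕ ℕ)) × (Bool → P ((R : Set T) ⊕ ℕ))) e =>
      (StrictMono e ∧ ∀ x : T, x ∈ (R : Set T) → x < e 0) ∧ e u.1 ∈ A ∧ ∀ s,
        rename (Sum.elim Subtype.val e) (u.2.1 s) = num (P T) (y (e u.1) s) ∧
        rename (Sum.elim Subtype.val e) (u.2.2 s) = den (P T) (y (e u.1) s)) fun γ => by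
    obtain ⟨δ, hδ⟩ := hT.fb (insert γ R)
    obtain ⟨β, a1, a2, a3⟩ := h0 δ
    obtain ⟨e, b1, b2, b3⟩ := ext hT (insert β (Finset.univ.biUnion (fun s =>
      (num (P T) (y β s)).vars ∪ (den (P T) (y β s) : P T).vars) \ R)) δ
      (Finset.forall_mem_insert _ _ _ |>.2 ⟨a1, fun c hc => (a3 c (Finset.mem_sdiff.1 hc).1).resolve_left
        fun h => (Finset.mem_sdiff.1 hc).2 (hR h)⟩)
    have b4 : ∀ x : T, x ∈ (R : Set T) → x < e 0 := fun x hx => (hδ x (Finset.mem_insert_of_mem hx)).trans b2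
    obtain ⟨a, rfl⟩ := b3 β (by simp)
    have t : ∀ p : P T, (∃ s, p.vars ⊆ (num (P T) (y (e a) s)).vars ∪ (den (P T) (y (e a) s) : P T).vars) →
        ∃ w : P ((R : Set T) ⊕ ℕ), rename (Sum.elim Subtype.val e) w = p := fun p ⟨s, hs⟩ =>
      exists_rename_eq_of_vars_subset_range p _ (inj e b1 b4) fun c hc => by
        by_cases h : c ∈ R
        · exact ⟨.inl ⟨c, h⟩, rfl⟩
        · obtain ⟨i, rfl⟩ := b3 c (Finset.mem_insert_of_mem (Finset.mem_sdiff.2
            ⟨Finset.mem_biUnion.2 ⟨s, Finset.mem_univ _, hs hc⟩, h⟩))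
          exact ⟨.inr i, rfl⟩
    choose p hp using fun s => t _ ⟨s, Finset.subset_union_left⟩
    choose q hq using fun s => t _ ⟨s, Finset.subset_union_right⟩
    exact ⟨e, (hδ γ (by simp)).trans b2, (a, p, q), ⟨b1, b4⟩, a2, fun s => ⟨hp s, hq s⟩⟩
  set B := {e : ℕ → T | (StrictMono e ∧ ∀ x : T, x ∈ (R : Set T) → x < e 0) ∧ e a ∈ A ∧ ∀ s,
    rename (Sum.elim Subtype.val e) (p s) = num (P T) (y (e a) s) ∧
      rename (Sum.elim Subtype.val e) (q s) = den (P T) (y (e a) s)}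
  replace h1 : ∀ γ, ∃ e, γ < e 0 ∧ e ∈ B := h1
  obtain ⟨e0, -, he⟩ := h1 hT.ne.some
  have q0 : ∀ s, q s ≠ 0 := fun s e => d0 _ ((he.2.2 s).2.symm.trans (by rw [e, map_zero]))
  have cop : ∀ s, IsRelPrime (p s) (q s) := fun s => (cop_ren (inj e0 he.1.1 he.1.2) (q0 s)).1
    (by rw [(he.2.2 s).1, (he.2.2 s).2]; exact num_den_reduced _ _)
  let w := fun s s' : Bool => (bif s then z0 else 0) - bif s' then z0 else 0
  have eg : ∀ α β s s', rename (ι R α β) (gg a (w s s')) =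
      (X (α a) + bif s then z else 0) - (X (β a) + bif s' then z else 0) := fun α β s s' => by
    rw [ι_gg]
    cases s <;> cases s' <;> simp [w, hz] <;> ring
  have edge : ∀ α β s s', StrictMono (ι R α β) → χP r (rename (ι R α β) (gg a (w s s'))) = ε →
      y (α a) s ≠ y (β a) s' ∧ χ r (y (α a) s - y (β a) s') = ε := fun α β s s' h e => by
    have := (map_ne_zero_iff _ (rename_injective _ h.injective)).2 (gg_prime a (w s s')).ne_zero
    rw [eg] at e this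
    exact hf _ _ (am_inj.ne (sub_ne_zero.1 this)) (by rw [← map_sub, χ_am this, e])
  have nl : ∀ s s' i, Wr (.inr i) (p s) (q s) ≠ 0 → Wr (.inr i) (p s') (q s') ≠ 0 → _ :=
    fun s s' i w1 w2 => NL (cop s) (cop s') (q0 s) (q0 s') w1 w2 (g := gg a (w s s')) rfl
      fun u u1 u2 ⟨k, hk⟩ u3 => by_contra fun u4 => by
        have k0 : k ≠ 0 := by rintro rfl; exact u3 (by simp [hk])
        obtain ⟨α, a1, h⟩ := C1 hT hr h1 (fun e h => h.1) (gg_prime a (w s s')) ⟨a, gg_mt _ _⟩ k0 (Or.inr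
          ⟨u1, u2, u4, fun h => u3 (by rw [hk, sq]; exact mul_dvd_mul_left u h)⟩) ε (-ε)
        obtain ⟨β, -, a2, a3, a4, a5⟩ := h (α 0)
        obtain ⟨b1, b2⟩ := edge α β s s' a3 a4
        replace a5 := a5.resolve_left u1.ne_one
        have b3 := (map_ne_zero_iff _ (rename_injective _ a3.injective)).2 (mul_ne_zero u1.ne_zero k0)
        simp only [← hk, map_mul, map_sub, ι_rb, cond_false, cond_true, a1.2.2 _, a2.2.2 _,
          mul_assoc] at a5 b3
        rw [χ_eq (left_ne_zero_of_mul b3) (right_ne_zero_of_mul b3)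
          (by simp only [map_mul, map_sub, ← nd]; ring), a5] at b2
        exact neg_units_ne_self _ b2
  have ed : ∀ s, ∃ α ∈ B, ∃ β ∈ B, y (α a) s ≠ y (β a) s := fun s => by
    obtain ⟨α, a1, h⟩ := C1 hT hr h1 (fun e h => h.1) (gg_prime a (w s s)) ⟨a, gg_mt _ _⟩ one_ne_zero
      (Or.inl rfl) ε ε
    obtain ⟨β, -, a2, a3, a4, -⟩ := h (α 0)
    exact ⟨α, a1, β, a2, (edge α β s s a3 a4).1⟩
  have W : ∀ s, Wr (.inr a) (p s) (q s) ≠ 0 := fun s => by
    obtain ⟨i, hi⟩ : ∃ i, Wr (.inr i) (p s) (q s) ≠ 0 := by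
      by_contra! h
      obtain ⟨α, a1, β, a2, a3⟩ := ed s
      have : ∀ u : P ((R : Set T) ⊕ ℕ), (∀ i, .inr i ∉ u.vars) →
          rename (Sum.elim Subtype.val α) u = rename (Sum.elim Subtype.val β) u := fun u h => ren_congr (by
        rintro (x | i) hi
        exacts [rfl, absurd hi (h i)])
      refine a3 ((num_mul_den_eq_num_mul_den_iff_eq (A := P T)).1 ?_)
      rw [← (a1.2.2 s).1, ← (a1.2.2 s).2, ← (a2.2.2 s).1, ← (a2.2.2 s).2,
        this _ fun i => (Wr_zero (cop s) (q0 s) (h i)).1, this _ fun i => (Wr_zero (cop s) (q0 s) (h i)).2]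
    exact gg_var (nl s s i hi hi).1 ▸ hi
  obtain ⟨α, a1, α', a2, a3⟩ := ed false
  refine ⟨num _ (y (α a) false) - num _ (y (α' a) false),
    num _ (y (α' a) false) * X (α a) - num _ (y (α a) false) * X (α' a),
    den (P T) (y (α a) false) - den (P T) (y (α' a) false),
    (den (P T) (y (α' a) false) : P T) * X (α a) - (den (P T) (y (α a) false) : P T) * X (α' a), fun h => ?_, fun γ => ?_⟩
  · refine mul_ne_zero (sub_ne_zero.2 (num_mul_den_eq_num_mul_den_iff_eq (A := P T).not.2 a3.symm))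
      (sub_ne_zero.2 (X_injective.ne fun e : α a = α' a => a3 (by rw [e]))) ?_
    linear_combination h
  obtain ⟨β, b1, b2⟩ := h1 γ
  refine ⟨β a, b1.trans_le (b2.1.1.monotone a.zero_le), b2.2.1, ?_⟩
  suffices ∀ s, Mb f _ _ _ _ (X (β a) + bif s then z else 0) from ⟨by simpa using this false, this true⟩
  intro s
  obtain ⟨-, c, -, c1, c2⟩ := nl false s a (W _) (W _)
  have e1 := congrArg (rename (ι R α β)) c2
  have e2 := congrArg (rename (ι R α' β)) c2
  rw [map_mul _ _ c, ren_congr (p := c) (f' := ι R β β) fun x hx => by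
    rcases x.cases with ⟨x, rfl⟩ | ⟨b, i, rfl⟩
    exacts [rfl, absurd hx (c1 _ _)]] at e1 e2
  simp only [eg, map_mul, map_sub, ι_rb, cond_false, cond_true, a1.2.2 _, a2.2.2 _, b2.2.2 _] at e1 e2
  refine mul_right_cancel₀ (am_inj.ne_iff' (map_zero _) |>.2 (d0 (y (β a) s))) ?_
  rw [mul_right_comm, nd, ← map_mul, ← map_mul]
  congr 1
  linear_combination (X (α' a) - (X (β a) + bif s then z else 0)) * e1 -
    (X (α a) - (X (β a) + bif s then z else 0)) * e2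

theorem noinj {w : P T} (hw : w ≠ 0) (f0 : f 0 = 0) (fw : f (am w) = 0) : False := by
  have := hT.nm
  obtain ⟨a, b, c, d, h0, h1⟩ := ML hT hr hf (A := univ) (fun γ => by simpa using exists_gt γ) 0
  obtain ⟨R, hR⟩ : ∃ R : Finset T, ∀ p ∈ [a, b, c, d, w], ∃ u : P (R : Set T), rename (↑) u = p :=
    ⟨[a, b, c, d, w].toFinset.biUnion vars, fun p hp => tmpl fun x hx =>
      Finset.mem_biUnion.2 ⟨p, List.mem_toFinset.2 hp, hx⟩⟩
  simp only [List.forall_mem_cons] at hR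
  obtain ⟨⟨a, rfl⟩, ⟨b, rfl⟩, ⟨c, rfl⟩, ⟨d, rfl⟩, ⟨w, rfl⟩, -⟩ := hR
  have h2 : a * d - b * c ≠ 0 := fun e => h0 (by simpa using congrArg (rename ((↑) : _ → T)) e)
  obtain ⟨q, k, q1, q2, q3, q4⟩ : ∃ q k, Prime q ∧ Mt q ∧ ¬ q ∣ k ∧
      (ρ a * -gg 0 0 + ρ b) * (ρ c * -gg 0 0 + ρ d) = q * k := by
    by_cases h : a = 0
    · rw [mul_comm]
      exact sym (by rintro rfl; simp [h] at h2) fun e => h2 (by linear_combination -e)
    · exact sym h h2
  obtain ⟨u, u1, u2⟩ : ∃ u, f (am (rename (↑) u)) = 0 ∧ ¬ Associated q (gg 0 u) := by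
    by_contra! h
    refine v_ρ (vars_dvd ?_ ((map_ne_zero_iff _ ρ_inj).2 fun e : w = 0 => hw (by simp [e])) q2.choose_spec.1)
    convert (h w fw).dvd.sub (h 0 (by simpa)).dvd using 1
    simp [gg]
  obtain ⟨α, -, h3⟩ := C1 hT hr (A := {e | (StrictMono e ∧ ∀ x : T, x ∈ (R : Set T) → x < e 0) ∧
      Mb f (rename (↑) a) (rename (↑) b) (rename (↑) c) (rename (↑) d) (X (e 0))}) (fun γ => by
    obtain ⟨δ, hδ⟩ := hT.fb (insert γ R)
    obtain ⟨β, a1, -, a2, -⟩ := h1 δ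
    obtain ⟨e, a3, rfl⟩ := Nat.exists_strictMono' β
    exact ⟨e, (hδ γ (by simp)).trans a1, ⟨a3, fun x hx => (hδ x (Finset.mem_insert_of_mem hx)).trans a1⟩,
      a2⟩) (fun e h => h.1) (gg_prime 0 u) ⟨0, gg_mt _ _⟩ (by rintro rfl; simp at q3)
    (Or.inr ⟨q1, q2, u2, q3⟩) ε (-ε)
  obtain ⟨a', b', c', d', h4, h5⟩ := ML hT hr hf (A := (fun β : ℕ → T => β 0) '' _)
    (fun γ => (h3 γ).elim fun β h => ⟨β 0, h.1, β, h.2, rfl⟩) (-X (α 0))
  obtain ⟨_, -, ⟨β, ⟨⟨-, a1⟩, a2, a3, a4⟩, rfl⟩, a5, a6⟩ := h5 (α 0)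
  obtain ⟨_, b0, ⟨β', ⟨⟨-, b1⟩, -⟩, rfl⟩, b5, -⟩ := h5 (β 0)
  obtain ⟨_, c0, ⟨β'', ⟨⟨-, c1⟩, -⟩, rfl⟩, c5, -⟩ := h5 (β' 0)
  replace a4 := a4.resolve_left q1.ne_one
  have a7 := (map_ne_zero_iff _ (rename_injective _ a2.injective)).2 (gg_prime 0 u).ne_zero
  have a8 := (map_ne_zero_iff _ (rename_injective _ a2.injective)).2
    (mul_ne_zero q1.ne_zero (show k ≠ 0 by rintro rfl; simp at q3))
  simp only [← q4, ι_gg, ι_ρ, map_mul, map_add, map_neg, map_zero, add_zero, neg_sub] at a3 a4 a7 a8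
  generalize rename ((↑) : _ → T) a = a at *
  generalize rename ((↑) : _ → T) b = b at *
  generalize rename ((↑) : _ → T) c = c at *
  generalize rename ((↑) : _ → T) d = d at *
  have E : ∀ x, Mb f a b c d x → Mb f a' b' c' d' x →
      (a * x + b) * (c' * x + d') = (a' * x + b') * (c * x + d) := fun x h h' => am_inj (by
    rw [map_mul, map_mul, ← h, ← h']; ring)
  rw [← sub_eq_add_neg] at a6
  set x : P T := X (β 0) - X (α 0)
  have e1 : (a * x + b) * (c' * x + d') = (a' * x + b') * (c * x + d) := by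
    have n : ∀ {s t : T}, s < t → (X s - X t : P T) ≠ 0 := fun h => sub_ne_zero.2 (X_injective.ne h.ne)
    refine mul_right_cancel₀ (mul_ne_zero (n b0) (mul_ne_zero (n (b0.trans c0)) (n c0))) ?_
    linear_combination (x - X (β' 0)) * (x - X (β'' 0)) * (X (β' 0) - X (β'' 0)) * E _ a1 a5 -
      (x - X (β 0)) * (x - X (β'' 0)) * (X (β 0) - X (β'' 0)) * E _ b1 b5 +
      (x - X (β 0)) * (x - X (β' 0)) * (X (β 0) - X (β' 0)) * E _ c1 c5
  have e2 : c' * x + d' ≠ 0 := fun e => h4 (by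
    have : a' * x + b' = 0 := am_inj (by rw [← a6, e]; simp)
    linear_combination a' * e - c' * this)
  have e3 : Mb f a b c d x := mul_right_cancel₀ (am_inj.ne_iff' (map_zero _) |>.2 e2) (by
    rw [mul_right_comm, a6, ← map_mul, ← map_mul, e1])
  have e4 : am (rename (↑) u) - am x = am (X (α 0) - X (β 0) + rename (↑) u) := by
    rw [← map_sub]; congr 1; ring
  have := (hf _ _ (sub_ne_zero.1 (e4 ▸ (am_inj.ne_iff' (map_zero _) |>.2 a7))) (by rw [e4, χ_am a7, a3])).2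
  rw [u1, zero_sub, χ_neg, χ_eq (left_ne_zero_of_mul a8) (right_ne_zero_of_mul a8) e3, a4] at this
  exact neg_units_ne_self _ this

end Pool.Agent.H.MP_a6df80_lc
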